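import Pool.Agent.H24.VP.Def

/-!
# ABUNDANCE (MP_e49dc9_ag), chapter (UB): a model over an intermediate field above a model

`Ov X Y π ψ`: `X : Mod k K`, `F` a field between `k` and `K`, `Y : Mod F K`; every local ring of `Y` contains the local ring of its image point in `X`;
`ψ` is the pull back of the divisors.
-/

set_option autoImplicit false

namespace Pool.Agent.H4.YB

open Pool.Agent.H54.RV Pool.Agent.H83.TU

variable {k K : Type} [Field k] [Field K] [Algebra k K]

/-- `Y` is a model over the intermediate field `F`, above the model `X` -/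
structure Ov (X : Mod k K) {F : IntermediateField k K} (Y : Mod F K) (π : Y.P → X.P) (ψ : Cart X →* Cart Y) : Prop where
  le : ∀ y, ∀ a ∈ X.O (π y), a ∈ Y.O y
  eq : ∀ D y, (ψ D).eq y = D.eq (π y)
  aff : ∀ D s, Sec D 1 s → X.aff (nz D 1 s) → Y.aff (nz (ψ D) 1 s)

end Pool.Agent.H4.YB
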