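import Pool.Agent.H4.YB.Ua

/-!
# ABUNDANCE (MP_e49dc9_ag), chapter (UB): the upper bound for the sections on `Y`, numbers

`ub`: `[F : F₀] * h0 (Y, n V) ≤ n² / 2 * T V V G + C (n + 1)`, from the count (UB0) `dim_F₀ F₀ · L_X(W) ≤ h0(W) - h0(W - G)` (helper43, hypothesis `hwd`).
-/

set_option autoImplicit false

namespace Pool.Agent.H4.YB

open Pool.Agent.H54.RV Pool.Agent.H83.TU Pool.Agent.H83.TK Pool.Agent.H24.TK Pool.Agent.H24.VP

variable {k K : Type} [Field k] [Field K] [Algebra k K] {X : Mod k K} {F : IntermediateField k K} {Y : Mod F K}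
  {π : Y.P → X.P} {ψ : Cart X →* Cart Y}

/-- the numbers for one residue class of `n` -/
theorem ub_num [CharZero k] (hX : IsVar X) (hg : ∃ g, Gen X g) (hY : IsVar Y) (hgY : ∃ g, Gen Y g) (hO : Ov X Y π ψ)
    {F₀ : IntermediateField k K} (hF : F₀ ≤ F) [FiniteDimensional F₀ (IntermediateField.extendScalars hF)]
    {T : Cart X → Cart X → Cart X → ℝ} {l : Cart X → ℝ} {c : ℝ} (hr : RR T l c) {G : Cart X}
    (hwd : ∀ W : Cart X, (Module.finrank F₀ (Submodule.span F₀ (secL W 1 : Set K)) : ℝ) ≤ h0 W 1 - h0 (W * G⁻¹) 1)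
    {H : Cart X} {r : ℕ} {t : Fin r → K} (hFr : Fr H r t) (W : Cart X) :
    ∃ (C : ℝ) (n₀ : ℕ), ∀ n ≥ n₀, (Module.finrank F₀ (IntermediateField.extendScalars hF) : ℝ) * h0 (ψ (W * H ^ n)) 1 ≤
      (n : ℝ) ^ 2 / 2 * T H H G + C * (n + 1) := by
  obtain ⟨w, M, n₁, hw, h1⟩ := ub_mul hX hg hY hgY hO hF hFr W
  obtain ⟨n₂, h2⟩ := hr.ev 1 H hFr.ample
  obtain ⟨n₃, h3⟩ := hr.ev G⁻¹ H hFr.ample
  have hcF : CharZero F := charZero_of_injective_algebraMap (algebraMap k F).injective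
  refine ⟨M * |T H H G| + M ^ 2 * |T H H G| + (M + 1) * |T H G G| + |T G G G| + |l G|, n₁ + n₂ + n₃, fun n hn => ?_⟩
  have h4 : FiniteDimensional F (secL (ψ (W * H ^ n)) 1) := fd hY hgY (fr_Y hO hFr).ample _
  have h5 : FiniteDimensional F₀ (Submodule.span F₀ (secL (H ^ (n + M)) 1 : Set K)) := fd_span hX hg hFr.ample F₀ _
  have h6 := dim_le hF (secL (ψ (W * H ^ n)) 1) _ hw (h1 n (by omega))
  have h7 := hwd (H ^ (n + M))
  have h8 := h2 (n + M) (by omega)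
  have h9 := h3 (n + M) (by omega)
  rw [one_mul] at h8
  rw [mul_comm (G⁻¹)] at h9
  have h10 := hr.chi_sub G (H ^ (n + M))
  rw [h8, h9, h10] at h7
  have h11 : (Module.finrank F₀ (IntermediateField.extendScalars hF) : ℝ) * h0 (ψ (W * H ^ n)) 1 ≤
      chS T l G (H ^ (n + M)) := by
    refine le_trans ?_ h7
    exact_mod_cast h6
  refine h11.trans ?_
  have ht := hr.tri
  unfold chS
  rw [ht.pow, ht.pow2, ht.pow]
  push_cast
  have hn0 : (0 : ℝ) ≤ n := Nat.cast_nonneg n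
  have hM0 : (0 : ℝ) ≤ M := Nat.cast_nonneg M
  generalize (n : ℝ) = x at *
  generalize (M : ℝ) = y at *
  generalize T H H G = a
  generalize T H G G = b
  generalize T G G G = d
  generalize l G = e
  have ha := le_abs_self a
  have hb := neg_abs_le b
  have hd := le_abs_self d
  have he := le_abs_self e
  have ha0 := abs_nonneg a
  have hb0 := abs_nonneg b
  have hd0 := abs_nonneg d
  have he0 := abs_nonneg e
  have e1 : x * y * a ≤ x * y * |a| := mul_le_mul_of_nonneg_left ha (mul_nonneg hn0 hM0)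
  have e2 : y ^ 2 * a ≤ y ^ 2 * |a| := mul_le_mul_of_nonneg_left ha (sq_nonneg y)
  have e3 : (x + y) * (-b) ≤ (x + y) * |b| := mul_le_mul_of_nonneg_left (by linarith) (by linarith)
  nlinarith [mul_nonneg hn0 hd0, mul_nonneg hn0 he0, mul_nonneg hM0 ha0, mul_nonneg (mul_nonneg hn0 hM0) ha0,
    mul_nonneg (sq_nonneg y) ha0, mul_nonneg (mul_nonneg hn0 (sq_nonneg y)) ha0, mul_nonneg hn0 hb0, mul_nonneg hM0 hb0,
    mul_nonneg (mul_nonneg hn0 hM0) hb0]

theorem ub [CharZero k] (hX : IsVar X) (hg : ∃ g, Gen X g) (hY : IsVar Y) (hgY : ∃ g, Gen Y g) (hO : Ov X Y π ψ)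
    {F₀ : IntermediateField k K} (hF : F₀ ≤ F) [FiniteDimensional F₀ (IntermediateField.extendScalars hF)]
    {T : Cart X → Cart X → Cart X → ℝ} {l : Cart X → ℝ} {c : ℝ} (hr : RR T l c) {G : Cart X}
    (hwd : ∀ W : Cart X, (Module.finrank F₀ (Submodule.span F₀ (secL W 1 : Set K)) : ℝ) ≤ h0 W 1 - h0 (W * G⁻¹) 1)
    {V : Cart X} (hV : Ample V) :
    ∃ C : ℝ, ∀ n : ℕ, (Module.finrank F₀ (IntermediateField.extendScalars hF) : ℝ) * h0 (ψ (V ^ n)) 1 ≤
      (n : ℝ) ^ 2 / 2 * T V V G + C * (n + 1) := by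
  obtain ⟨m, hm, r, t, hFr⟩ := exists_fr hX V hV
  have h1 := fun i : ℕ => ub_num hX hg hY hgY hO hF hr hwd hFr (V ^ i)
  choose C n₀ h2 using h1
  set e : ℝ := (Module.finrank F₀ (IntermediateField.extendScalars hF) : ℝ) with he
  have hT : T (V ^ m) (V ^ m) G = (m : ℝ) ^ 2 * T V V G := by
    rw [hr.tri.pow, hr.tri.pow2]
    ring
  -- large `n`
  have h3 : ∃ C₁ : ℝ, 0 ≤ C₁ ∧ ∀ n ≥ ∑ i ∈ Finset.range m, m * n₀ i + m, e * h0 (ψ (V ^ n)) 1 ≤
      (n : ℝ) ^ 2 / 2 * T V V G + C₁ * (n + 1) := by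
    refine ⟨∑ i ∈ Finset.range m, |C i| + m * m * |T V V G| + m * |T V V G|, by positivity, fun n hn => ?_⟩
    obtain ⟨q, i, hi, rfl⟩ : ∃ q i, i < m ∧ n = i + m * q :=
      ⟨n / m, n % m, Nat.mod_lt _ (by omega), (Nat.mod_add_div n m).symm⟩
    have h4 : m * n₀ i ≤ ∑ i ∈ Finset.range m, m * n₀ i :=
      Finset.single_le_sum (f := fun i => m * n₀ i) (fun _ _ => Nat.zero_le _) (Finset.mem_range.2 hi)
    have h5 : n₀ i ≤ q := by
      by_contra hcon
      push Not at hcon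
      have h6 : m * (q + 1) ≤ m * n₀ i := Nat.mul_le_mul_left m (by omega)
      rw [mul_add, mul_one] at h6
      omega
    have h6 := h2 i q h5
    rw [← pow_mul, ← pow_add, hT] at h6
    refine h6.trans ?_
    have h7 : |C i| ≤ ∑ i ∈ Finset.range m, |C i| :=
      Finset.single_le_sum (f := fun i => |C i|) (fun _ _ => abs_nonneg _) (Finset.mem_range.2 hi)
    have h8 : (q : ℝ) ≤ m * q := by
      have h9 : (1 : ℝ) ≤ m := by exact_mod_cast hm
      have h10 : (0 : ℝ) ≤ q := Nat.cast_nonneg q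
      nlinarith
    have hC : C i * ((q : ℝ) + 1) ≤ (∑ i ∈ Finset.range m, |C i|) * (i + m * q + 1) := by
      have h10 : (0 : ℝ) ≤ q := Nat.cast_nonneg q
      have h11 : (0 : ℝ) ≤ i := Nat.cast_nonneg i
      calc C i * ((q : ℝ) + 1) ≤ |C i| * ((q : ℝ) + 1) := mul_le_mul_of_nonneg_right (le_abs_self _) (by linarith)
        _ ≤ (∑ i ∈ Finset.range m, |C i|) * ((q : ℝ) + 1) := mul_le_mul_of_nonneg_right h7 (by linarith)
        _ ≤ _ := mul_le_mul_of_nonneg_left (by linarith) ((abs_nonneg _).trans h7)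
    have hi' : (i : ℝ) ≤ m := by exact_mod_cast hi.le
    have hi0 : (0 : ℝ) ≤ i := Nat.cast_nonneg i
    have hm0 : (0 : ℝ) ≤ m := Nat.cast_nonneg m
    have hq0 : (0 : ℝ) ≤ m * q := by positivity
    push_cast
    generalize (∑ i ∈ Finset.range m, |C i|) = S at *
    have hz : -((i : ℝ) * (m * q) + (i : ℝ) ^ 2 / 2) * T V V G ≤ (m * m * |T V V G| + m * |T V V G|) * (i + m * q + 1) := by
      have e1 : -((i : ℝ) * (m * q) + (i : ℝ) ^ 2 / 2) * T V V G ≤ ((i : ℝ) * (m * q) + (i : ℝ) ^ 2 / 2) * |T V V G| := by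
        have e2 := neg_abs_le (T V V G)
        have e3 : 0 ≤ (i : ℝ) * (m * q) + (i : ℝ) ^ 2 / 2 := by positivity
        nlinarith
      refine e1.trans ?_
      have e4 : (i : ℝ) * (m * q) + (i : ℝ) ^ 2 / 2 ≤ (m * m + m) * (i + m * q + 1) := by
        have e5 : (i : ℝ) * (m * q) ≤ m * (m * q) := mul_le_mul_of_nonneg_right hi' hq0
        have e6 : (i : ℝ) ^ 2 ≤ m * m := by nlinarith
        nlinarith [mul_nonneg hm0 hi0, mul_nonneg (mul_nonneg hm0 hm0) hi0, mul_nonneg (mul_nonneg hm0 hm0) hq0]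
      have e5 := mul_le_mul_of_nonneg_right e4 (abs_nonneg (T V V G))
      refine e5.trans (le_of_eq ?_)
      ring
    nlinarith
  obtain ⟨C₁, hC₁, h4⟩ := h3
  set N := ∑ i ∈ Finset.range m, m * n₀ i + m with hN
  refine ⟨C₁ + ∑ n ∈ Finset.range N, |e * h0 (ψ (V ^ n)) 1| + N ^ 2 * |T V V G|, fun n => ?_⟩
  have hn0 : (0 : ℝ) ≤ n := Nat.cast_nonneg n
  have hS : 0 ≤ ∑ n ∈ Finset.range N, |e * h0 (ψ (V ^ n)) 1| := Finset.sum_nonneg fun _ _ => abs_nonneg _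
  have hA : 0 ≤ (N : ℝ) ^ 2 * |T V V G| := by positivity
  rcases le_or_gt N n with hn | hn
  · have h5 := h4 n hn
    nlinarith [mul_nonneg hn0 hS, mul_nonneg hn0 hA]
  · have h5 : |e * h0 (ψ (V ^ n)) 1| ≤ ∑ n ∈ Finset.range N, |e * h0 (ψ (V ^ n)) 1| :=
      Finset.single_le_sum (f := fun n => |e * h0 (ψ (V ^ n)) 1|) (fun _ _ => abs_nonneg _) (Finset.mem_range.2 hn)
    have h6 := le_abs_self (e * h0 (ψ (V ^ n)) 1)
    have h7 : (n : ℝ) ≤ N := by exact_mod_cast hn.le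
    have h8 : -((n : ℝ) ^ 2 / 2 * T V V G) ≤ (N : ℝ) ^ 2 * |T V V G| := by
      have e1 := neg_abs_le (T V V G)
      have e2 : (n : ℝ) ^ 2 / 2 ≤ (N : ℝ) ^ 2 := by nlinarith
      have e3 : -((n : ℝ) ^ 2 / 2 * T V V G) ≤ (n : ℝ) ^ 2 / 2 * |T V V G| := by
        have e4 : (0 : ℝ) ≤ (n : ℝ) ^ 2 / 2 := by positivity
        nlinarith
      exact e3.trans (mul_le_mul_of_nonneg_right e2 (abs_nonneg _))
    nlinarith [mul_nonneg hn0 hS, mul_nonneg hn0 hA, mul_nonneg hn0 hC₁]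

end Pool.Agent.H4.YB
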