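import Pool.Agent.H4.YB.Def
import Pool.Agent.H24.TK.Fin
import Pool.Agent.H24.VP.Alg

/-!
# ABUNDANCE (MP_e49dc9_ag), chapter (UB): the upper bound for the sections on `Y`

`ub_mul`: `w * L_Y(W + nH) ⊆ F₀ · L_X((n + M) H)` for a fixed `w ≠ 0`: `L_Y(W + nH)` is generated over the forms in the frame by `L_Y(W + n₀ H)` (`gen_le` for `Y`),
which is finite dimensional over `F₀`, and every element of `K` is a quotient of sections of multiples of `H` on `X`.
`ub`: `[F : F₀] * h0 (Y, n V) ≤ n² / 2 * T V V G + C (n + 1)`, from the count (UB0) `dim_F₀ F₀ · L_X(W) ≤ h0(W) - h0(W - G)` (helper43, hypothesis `hwd`).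
-/

set_option autoImplicit false

namespace Pool.Agent.H4.YB

open Pool.Agent.H54.RV Pool.Agent.H83.TU Pool.Agent.H83.TK Pool.Agent.H24.TK Pool.Agent.H24.VP

variable {k K : Type} [Field k] [Field K] [Algebra k K] {X : Mod k K} {F : IntermediateField k K} {Y : Mod F K}
  {π : Y.P → X.P} {ψ : Cart X →* Cart Y}

/-- a common denominator of finitely many elements among the sections of the multiples of `H` -/
theorem den_fin (hX : IsVar X) (hg : ∃ g, Gen X g) {H : Cart X} {r : ℕ} {t : Fin r → K} (hFr : Fr H r t)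
    (S : Finset K) : ∃ (w : K) (M : ℕ), w ≠ 0 ∧ ∀ x ∈ S, Sec (H ^ M) 1 (w * x) := by
  obtain ⟨j, hj⟩ := hFr.exists_ne hX
  have hne : (nz H 1 (t j)).Nonempty := by
    obtain ⟨g, hg⟩ := hg
    refine ⟨g, mul_ne_zero hj (pow_ne_zero _ (H.ne g)), ?_, ?_⟩
    · rw [hg.top]; exact Algebra.mem_top
    · rw [hg.top]; exact Algebra.mem_top
  have hsec : ∀ a ∈ X.sec (nz H 1 (t j)), ∃ N : ℕ, ∀ n ≥ N, Sec H n (t j ^ n * a) := by
    intro a ha
    obtain ⟨N, hN⟩ := ext_sec hX H 1 1 (t j) a (hFr.sec j) (fun y hy => by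
      rw [one_eq, mul_one]
      exact (mem_sec _ a).1 ha y hy)
    refine ⟨N, fun n hn y => ?_⟩
    have h1 := hN n hn y
    rwa [one_eq, mul_one, pow_one] at h1
  obtain ⟨s, hs, hs0, h1⟩ := Pool.Agent.H20.TU.sec_frac_fin hX hg _ (hFr.aff j) hne S
  have h2 : ∀ x : K, ∃ N : ℕ, x ∈ S → ∀ n ≥ N, Sec H n (t j ^ n * (x * s)) := by
    intro x
    by_cases hx : x ∈ S
    · obtain ⟨N, hN⟩ := hsec _ (h1 x hx)
      exact ⟨N, fun _ => hN⟩
    · exact ⟨0, fun h => absurd h hx⟩
  choose N hN using h2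
  refine ⟨t j ^ (S.sup N) * s, S.sup N, mul_ne_zero (pow_ne_zero _ hj) hs0, fun x hx => ?_⟩
  rw [sec_pow_iff]
  have h3 := hN x hx _ (Finset.le_sup hx)
  have h4 : t j ^ S.sup N * s * x = t j ^ S.sup N * (x * s) := by ring
  rw [h4]
  exact h3

/-- a frame of `H` on `X` is a frame of `ψ H` on `Y` -/
theorem fr_Y (hO : Ov X Y π ψ) {H : Cart X} {r : ℕ} {t : Fin r → K} (hFr : Fr H r t) : Fr (ψ H) r t where
  sec j y := by
    rw [hO.eq]
    exact hO.le y _ (hFr.sec j (π y))
  aff j := hO.aff _ _ (hFr.sec j) (hFr.aff j)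
  cov y := by
    obtain ⟨j, h1, h2, h3⟩ := hFr.cov (π y)
    refine ⟨j, ?_, ?_, ?_⟩
    · rw [hO.eq]
      exact h1
    · rw [hO.eq]
      exact hO.le y _ h2
    · rw [hO.eq]
      exact hO.le y _ h3

/-- a finite set which spans `F` over `F₀` -/
theorem ext_gen {F₀ : IntermediateField k K} (hF : F₀ ≤ F) [FiniteDimensional F₀ (IntermediateField.extendScalars hF)] :
    ∃ S : Finset K, ∀ a ∈ F, a ∈ Submodule.span F₀ (S : Set K) := by
  have h1 : FiniteDimensional F₀ (IntermediateField.extendScalars hF).toSubalgebra.toSubmodule :=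
    (inferInstance : FiniteDimensional F₀ (IntermediateField.extendScalars hF))
  obtain ⟨S, hS⟩ := Module.Finite.iff_fg.1 h1
  refine ⟨S, fun a ha => ?_⟩
  rw [hS]
  exact (IntermediateField.mem_extendScalars hF).2 ha

theorem ext_mul {F₀ : IntermediateField k K} (_hF : F₀ ≤ F) {S : Finset K} {a : K}
    (ha : a ∈ Submodule.span F₀ (S : Set K)) (x : K) (N : Submodule F₀ K) (h : ∀ s ∈ S, s * x ∈ N) : a * x ∈ N := by
  induction ha using Submodule.span_induction with
  | mem a ha => exact h a ha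
  | zero => rw [zero_mul]; exact N.zero_mem
  | add a b _ _ ha hb => rw [add_mul]; exact N.add_mem ha hb
  | smul c a _ ha => rw [smul_mul_assoc]; exact N.smul_mem c ha

theorem ub_mul [CharZero k] (hX : IsVar X) (hg : ∃ g, Gen X g) (hY : IsVar Y) (hgY : ∃ g, Gen Y g) (hO : Ov X Y π ψ)
    {F₀ : IntermediateField k K} (hF : F₀ ≤ F) [FiniteDimensional F₀ (IntermediateField.extendScalars hF)]
    {H : Cart X} {r : ℕ} {t : Fin r → K} (hFr : Fr H r t) (W : Cart X) :
    ∃ (w : K) (M n₁ : ℕ), w ≠ 0 ∧ ∀ n ≥ n₁, ∀ f, Sec (ψ (W * H ^ n)) 1 f →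
      w * f ∈ Submodule.span F₀ (secL (H ^ (n + M)) 1 : Set K) := by
  classical
  have hcF : CharZero F := charZero_of_injective_algebraMap (algebraMap k F).injective
  have hFY := fr_Y hO hFr
  obtain ⟨n₀, hn₀⟩ := gen_le hY hgY hFY (ψ W)
  have hfd : FiniteDimensional F (secL (ψ W * ψ H ^ n₀) 1) := fd hY hgY hFY.ample _
  obtain ⟨S₁, hS₁⟩ := Module.Finite.iff_fg.1 hfd
  obtain ⟨S₂, hS₂⟩ := ext_gen hF
  obtain ⟨w, M, hw, hwM⟩ := den_fin hX hg hFr (Finset.image₂ (fun a b => a * b) S₂ S₁)
  obtain ⟨j₀, hj₀⟩ := hFr.exists_ne hX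
  -- the first step
  have h0 : ∀ f, Sec (ψ W * ψ H ^ n₀) 1 f → w * f ∈ Submodule.span F₀ (secL (H ^ M) 1 : Set K) := by
    intro f hf
    have h1 : f ∈ Submodule.span F (S₁ : Set K) := by
      rw [hS₁]
      exact hf
    obtain ⟨φ, -, hφ⟩ := Submodule.mem_span_finset.1 h1
    rw [← hφ, Finset.mul_sum]
    refine Submodule.sum_mem _ fun g hg => ?_
    have h2 : w * (φ g • g) = (φ g : K) * (w * g) := by
      rw [Algebra.smul_def]
      change w * ((φ g : K) * g) = _
      ring
    rw [h2]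
    refine ext_mul hF (hS₂ _ (φ g).2) _ _ fun s hs => Submodule.subset_span ?_
    rw [mul_left_comm]
    exact hwM _ (Finset.mem_image₂_of_mem hs hg)
  -- multiplication by the elements of the frame
  have hmul : ∀ (m : ℕ) (j : Fin r) (x : K), x ∈ Submodule.span F₀ (secL (H ^ m) 1 : Set K) →
      t j * x ∈ Submodule.span F₀ (secL (H ^ (m + 1)) 1 : Set K) := by
    intro m j x hx
    induction hx using Submodule.span_induction with
    | mem x hx =>
      refine Submodule.subset_span ?_
      have h1 := sec_mul' H (H ^ m) (t j) x (hFr.sec j) hx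
      rw [← pow_succ'] at h1
      exact h1
    | zero => rw [mul_zero]; exact Submodule.zero_mem _
    | add x y _ _ hx hy => rw [mul_add]; exact Submodule.add_mem _ hx hy
    | smul a x _ hx => rw [mul_smul_comm]; exact Submodule.smul_mem _ _ hx
  have hall : ∀ i : ℕ, ∀ f, Sec (ψ W * ψ H ^ (n₀ + i)) 1 f →
      w * f ∈ Submodule.span F₀ (secL (H ^ (M + i)) 1 : Set K) := by
    intro i
    induction i with
    | zero => exact h0
    | succ i ih =>
      intro f hf
      obtain ⟨a, ha, rfl⟩ := hn₀ (n₀ + i) (Nat.le_add_right _ _) f hf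
      rw [Finset.mul_sum]
      refine Submodule.sum_mem _ fun j _ => ?_
      rw [mul_left_comm]
      exact hmul (M + i) j _ (ih _ (ha j))
  have hpow : ∀ (i m : ℕ) (x : K), x ∈ Submodule.span F₀ (secL (H ^ m) 1 : Set K) →
      t j₀ ^ i * x ∈ Submodule.span F₀ (secL (H ^ (m + i)) 1 : Set K) := by
    intro i
    induction i with
    | zero => intro m x hx; rwa [pow_zero, one_mul]
    | succ i ih =>
      intro m x hx
      rw [pow_succ', mul_assoc]
      exact hmul (m + i) j₀ _ (ih m x hx)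
  refine ⟨t j₀ ^ n₀ * w, M, n₀, mul_ne_zero (pow_ne_zero _ hj₀) hw, fun n hn f hf => ?_⟩
  obtain ⟨i, rfl⟩ := Nat.exists_eq_add_of_le hn
  rw [map_mul, map_pow] at hf
  have h1 := hpow n₀ (M + i) _ (hall i f hf)
  rw [← mul_assoc] at h1
  have h2 : M + i + n₀ = n₀ + i + M := by ring
  rwa [h2] at h1

/-- the span of the sections is finite dimensional -/
theorem fd_span [CharZero k] (hX : IsVar X) (hg : ∃ g, Gen X g) {A : Cart X} (hA : Ample A)
    (F₀ : IntermediateField k K) (W : Cart X) :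
    FiniteDimensional F₀ (Submodule.span F₀ (secL W 1 : Set K)) := by
  classical
  have h1 : FiniteDimensional k (secL W 1) := fd hX hg hA W
  obtain ⟨S, hS⟩ := Module.finite_def.1 h1
  have h2 : Submodule.span F₀ (secL W 1 : Set K) = Submodule.span F₀ ((S.image Subtype.val : Finset K) : Set K) := by
    refine le_antisymm (Submodule.span_le.2 fun x hx => ?_) (Submodule.span_mono ?_)
    · have h3 : (⟨x, hx⟩ : secL W 1) ∈ Submodule.span k (S : Set (secL W 1)) := by
        rw [hS]
        exact Submodule.mem_top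
      have h4 : x ∈ Submodule.span k ((S.image Subtype.val : Finset K) : Set K) := by
        have h5 := Submodule.mem_map_of_mem (f := (secL W 1).subtype) h3
        rw [Submodule.map_span] at h5
        rw [Finset.coe_image]
        exact h5
      exact Submodule.span_le_restrictScalars k F₀ _ h4
    · intro x hx
      rw [Finset.coe_image] at hx
      obtain ⟨y, -, rfl⟩ := hx
      exact y.2
  rw [h2]
  exact FiniteDimensional.span_finset F₀ _

/-- dimensions over the two fields -/
theorem dim_le {F₀ : IntermediateField k K} (hF : F₀ ≤ F) [FiniteDimensional F₀ (IntermediateField.extendScalars hF)]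
    (L : Submodule F K) (N : Submodule F₀ K) [FiniteDimensional F L] [FiniteDimensional F₀ N] {w : K} (hw : w ≠ 0)
    (h : ∀ f ∈ L, w * f ∈ N) :
    Module.finrank F₀ (IntermediateField.extendScalars hF) * Module.finrank F L ≤ Module.finrank F₀ N := by
  let b := Module.finBasis F L
  let c := Module.finBasis F₀ (IntermediateField.extendScalars hF)
  have h0 : LinearIndependent F (fun i => (b i : K)) :=
    b.linearIndependent.map' L.subtype (Submodule.ker_subtype L)
  have h1 : LinearIndependent (IntermediateField.extendScalars hF) (fun i => (b i : K)) := by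
    rw [Fintype.linearIndependent_iff] at h0 ⊢
    intro g hg i
    have h3 := h0 (fun i => ⟨(g i : K), (IntermediateField.mem_extendScalars hF).1 (g i).2⟩) hg i
    exact Subtype.ext (congrArg Subtype.val h3)
  have h2 : LinearIndependent F₀ fun p : Fin _ × Fin _ => c p.1 • (b p.2 : K) :=
    linearIndependent_smul c.linearIndependent h1
  have hmem : ∀ p : Fin _ × Fin _, w * (c p.1 • (b p.2 : K)) ∈ N := by
    intro p
    refine h _ ?_
    have h3 : c p.1 • (b p.2 : K) =
        (⟨(c p.1 : K), (IntermediateField.mem_extendScalars hF).1 (c p.1).2⟩ : F) • (b p.2 : K) := rfl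
    rw [h3]
    exact L.smul_mem _ (b p.2).2
  have h4 : LinearIndependent F₀ fun p : Fin _ × Fin _ => (⟨w * (c p.1 • (b p.2 : K)), hmem p⟩ : N) := by
    have h5 : LinearIndependent F₀ fun p : Fin _ × Fin _ => w * (c p.1 • (b p.2 : K)) := by
      have h6 := h2.map' (LinearMap.mulLeft F₀ w) (LinearMap.ker_eq_bot.2 fun a b hab => mul_left_cancel₀ hw hab)
      exact h6
    exact LinearIndependent.of_comp N.subtype h5
  have h5 := h4.fintype_card_le_finrank
  rw [Fintype.card_prod, Fintype.card_fin, Fintype.card_fin] at h5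
  exact h5

end Pool.Agent.H4.YB
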